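import Pool.Agent.Y709.Main

/-!
Counts of polynomials that are not squarefree, or not prime to a given polynomial.
-/

set_option autoImplicit false
set_option linter.unusedSectionVars false

open Polynomial

namespace Pool.Agent.Y709.Sp

variable {k : Type} [Field k] [Finite k]

theorem card_pos : 2 ≤ Nat.card k := Finite.one_lt_card

theorem ncard_drop (N : ℕ) :
    {D : k[X] | D.natDegree ≤ N ∧ D.natDegree ≠ N}.ncard ≤ Nat.card k ^ N := by
  rcases N with _ | N
  · have h1 : {D : k[X] | D.natDegree ≤ 0 ∧ D.natDegree ≠ 0} = ∅ := by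
      ext D
      simp only [Set.mem_ofPred_eq, Set.mem_empty_iff_false, iff_false]
      rintro ⟨h1, h2⟩
      omega
    rw [h1, Set.ncard_empty]
    exact Nat.zero_le _
  · rw [← ncard_natDegree_le (k := k) N]
    refine Set.ncard_le_ncard ?_ (finite_natDegree_le N)
    rintro D ⟨h1, h2⟩
    show D.natDegree ≤ N
    omega

theorem ncard_dvd {P : k[X]} (hP : P ≠ 0) (N : ℕ) :
    {D : k[X] | D.natDegree ≤ N ∧ P ∣ D}.ncard ≤ Nat.card k ^ (N + 1 - P.natDegree) := by
  by_cases h : P.natDegree ≤ N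
  · have h1 : {D : k[X] | D.natDegree ≤ N ∧ P ∣ D} ⊆
        (fun E => P * E) '' {E : k[X] | E.natDegree ≤ N - P.natDegree} := by
      rintro D ⟨hD, E, rfl⟩
      refine ⟨E, ?_, rfl⟩
      show E.natDegree ≤ _
      by_cases hE : E = 0
      · rw [hE, natDegree_zero]
        exact Nat.zero_le _
      · rw [natDegree_mul hP hE] at hD
        omega
    have h2 := finite_natDegree_le (k := k) (N - P.natDegree)
    refine (Set.ncard_le_ncard h1 (h2.image _)).trans ((Set.ncard_image_le h2).trans ?_)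
    rw [ncard_natDegree_le]
    apply le_of_eq
    congr 1
    omega
  · have h1 : {D : k[X] | D.natDegree ≤ N ∧ P ∣ D} ⊆ {0} := by
      rintro D ⟨hD, E, rfl⟩
      rw [Set.mem_singleton_iff]
      by_contra h0
      have hE : E ≠ 0 := fun h3 => h0 (by rw [h3, mul_zero])
      rw [natDegree_mul hP hE] at hD
      omega
    refine (Set.ncard_le_ncard h1 (Set.finite_singleton 0)).trans ?_
    rw [Set.ncard_singleton]
    exact Nat.one_le_pow _ _ (by have := card_pos (k := k); omega)

theorem finite_monic (j : ℕ) : {P : k[X] | P.Monic ∧ P.natDegree = j}.Finite :=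
  (finite_natDegree_le j).subset fun P hP => hP.2.le

theorem ncard_monic (j : ℕ) : {P : k[X] | P.Monic ∧ P.natDegree = j}.ncard ≤ Nat.card k ^ j := by
  rcases j with _ | j
  · have h1 : {P : k[X] | P.Monic ∧ P.natDegree = 0} ⊆ {1} := by
      rintro P ⟨h1, h2⟩
      exact h1.natDegree_eq_zero.1 h2
    refine (Set.ncard_le_ncard h1 (Set.finite_singleton 1)).trans ?_
    rw [Set.ncard_singleton, pow_zero]
  · have h1 : {P : k[X] | P.Monic ∧ P.natDegree = j + 1} ⊆
        (fun R => X ^ (j + 1) + R) '' {R : k[X] | R.natDegree ≤ j} := by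
      rintro P ⟨h1, h2⟩
      refine ⟨P - X ^ (j + 1), ?_, by ring⟩
      show (P - X ^ (j + 1)).natDegree ≤ j
      rw [natDegree_le_iff_coeff_eq_zero]
      intro n hn
      rw [coeff_sub, coeff_X_pow]
      rcases eq_or_ne n (j + 1) with h | h
      · rw [if_pos h, h, ← h2]
        rw [Monic.coeff_natDegree h1, sub_self]
      · rw [if_neg h, sub_zero]
        exact coeff_eq_zero_of_natDegree_lt (by omega)
    have h2 := finite_natDegree_le (k := k) j
    refine (Set.ncard_le_ncard h1 (h2.image _)).trans ((Set.ncard_image_le h2).trans ?_)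
    rw [ncard_natDegree_le]

theorem geom_bound {q : ℕ} (hq : 2 ≤ q) (N J : ℕ) (hJ : J ≤ N) :
    ∑ j ∈ Finset.range J, q ^ (N - j) + q ^ (N - J) ≤ 2 * q ^ N := by
  have key : ∀ J, J + 1 ≤ N + 1 → ∑ j ∈ Finset.range J, q ^ (N - j) + 2 * q ^ (N - J) ≤ 2 * q ^ N := by
    intro J
    induction J with
    | zero =>
      intro _
      rw [Finset.sum_range_zero, zero_add, Nat.sub_zero]
    | succ J ih =>
      intro h
      have h1 := ih (by omega)
      rw [Finset.sum_range_succ]
      have h2 : 2 * q ^ (N - (J + 1)) ≤ q ^ (N - J) := by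
        have h3 : N - J = N - (J + 1) + 1 := by omega
        rw [h3, pow_succ, mul_comm]
        exact Nat.mul_le_mul_left _ hq
      omega
  have := key J (by omega)
  omega

theorem finite_sub {p : k[X] → Prop} (N : ℕ) : {D : k[X] | D.natDegree ≤ N ∧ p D}.Finite :=
  (finite_natDegree_le N).subset fun _ hD => hD.1

theorem ncard_sq (N : ℕ) :
    {D : k[X] | D.natDegree ≤ N ∧ ¬ Squarefree D}.ncard ≤ 2 * Nat.card k ^ N := by
  classical
  set q := Nat.card k with hq
  have hq2 : 2 ≤ q := card_pos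
  let F : ℕ → Finset k[X] := fun j => (finite_monic (k := k) j).toFinset
  have hsub : {D : k[X] | D.natDegree ≤ N ∧ ¬ Squarefree D} ⊆
      {0} ∪ ⋃ j ∈ Finset.range (N / 2), ⋃ P ∈ F (j + 1),
        {D : k[X] | D.natDegree ≤ N ∧ P * P ∣ D} := by
    rintro D ⟨hD, hsq⟩
    by_cases h0 : D = 0
    · exact Or.inl h0
    right
    unfold Squarefree at hsq
    push Not at hsq
    obtain ⟨x, hx, hxu⟩ := hsq
    have hx0 : x ≠ 0 := by
      rintro rfl
      rw [mul_zero] at hx
      exact h0 (zero_dvd_iff.1 hx)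
    have hlc : x.leadingCoeff ≠ 0 := mt leadingCoeff_eq_zero.1 hx0
    set P := x * C x.leadingCoeff⁻¹ with hP
    have hPm : P.Monic := monic_mul_leadingCoeff_inv hx0
    have hPd : P.natDegree = x.natDegree := natDegree_mul_C (inv_ne_zero hlc)
    have hxP : x = P * C x.leadingCoeff := by
      rw [hP, mul_assoc, ← C_mul, inv_mul_cancel₀ hlc, C_1, mul_one]
    have hPD : P * P ∣ D := by
      refine dvd_trans ?_ hx
      refine ⟨C x.leadingCoeff * C x.leadingCoeff, ?_⟩
      conv_lhs => rw [hxP]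
      ring
    have hpos : 0 < x.natDegree := by
      by_contra h
      apply hxu
      have h1 : x.natDegree = 0 := by omega
      rw [eq_C_of_natDegree_eq_zero h1] at hx0 ⊢
      exact isUnit_C.2 (isUnit_iff_ne_zero.2 fun h2 => hx0 (by rw [h2, C_0]))
    have hdeg : 2 * P.natDegree ≤ N := by
      have h1 := natDegree_le_of_dvd hPD h0
      rw [natDegree_mul hPm.ne_zero hPm.ne_zero] at h1
      omega
    simp only [Set.mem_iUnion]
    refine ⟨P.natDegree - 1, Finset.mem_range.2 (by omega), P, ?_, hD, hPD⟩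
    rw [Set.Finite.mem_toFinset]
    exact ⟨hPm, by omega⟩
  have hfin : ∀ P : k[X], {D : k[X] | D.natDegree ≤ N ∧ P * P ∣ D}.Finite := fun P => finite_sub N
  have hb : ∀ j ∈ Finset.range (N / 2), (⋃ P ∈ F (j + 1),
      {D : k[X] | D.natDegree ≤ N ∧ P * P ∣ D}).ncard ≤ q ^ (N - j) := by
    intro j hj
    rw [Finset.mem_range] at hj
    have h1 : (⋃ P ∈ F (j + 1), {D : k[X] | D.natDegree ≤ N ∧ P * P ∣ D}).ncard ≤
        ∑ P ∈ F (j + 1), q ^ (N + 1 - 2 * (j + 1)) := by
      refine (Finset.set_ncard_biUnion_le _ _).trans (Finset.sum_le_sum fun P hP => ?_)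
      rw [Set.Finite.mem_toFinset] at hP
      have h2 := ncard_dvd (k := k) (P := P * P) (mul_ne_zero hP.1.ne_zero hP.1.ne_zero) N
      rw [natDegree_mul hP.1.ne_zero hP.1.ne_zero, hP.2] at h2
      have h3 : N + 1 - 2 * (j + 1) = N + 1 - (j + 1 + (j + 1)) := by omega
      rw [h3]
      exact h2
    refine h1.trans ?_
    rw [Finset.sum_const, smul_eq_mul]
    have h2 : (F (j + 1)).card ≤ q ^ (j + 1) := by
      have h3 := ncard_monic (k := k) (j + 1)
      rwa [Set.ncard_eq_toFinset_card _ (finite_monic (k := k) (j + 1))] at h3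
    refine (Nat.mul_le_mul_right _ h2).trans ?_
    rw [← pow_add]
    exact Nat.pow_le_pow_right (by omega) (by omega)
  have hfin2 : (⋃ j ∈ Finset.range (N / 2), ⋃ P ∈ F (j + 1),
        {D : k[X] | D.natDegree ≤ N ∧ P * P ∣ D}).Finite :=
    (Finset.finite_toSet _).biUnion fun j _ => (Finset.finite_toSet _).biUnion fun P _ => hfin P
  refine (Set.ncard_le_ncard hsub ((Set.finite_singleton 0).union hfin2)).trans ?_
  refine (Set.ncard_union_le _ _).trans ?_
  rw [Set.ncard_singleton]
  have h1 : (⋃ j ∈ Finset.range (N / 2), ⋃ P ∈ F (j + 1),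
        {D : k[X] | D.natDegree ≤ N ∧ P * P ∣ D}).ncard ≤
      ∑ j ∈ Finset.range (N / 2), q ^ (N - j) :=
    (Finset.set_ncard_biUnion_le _ _).trans (Finset.sum_le_sum hb)
  have h2 := geom_bound hq2 N (N / 2) (Nat.div_le_self _ _)
  have h3 : 1 ≤ q ^ (N - N / 2) := Nat.one_le_pow _ _ (by omega)
  omega

theorem ncard_cop {Δ : k[X]} (hΔ : Δ ≠ 0) {δ : ℕ} (hδ : Δ.natDegree ≤ δ) (N : ℕ) :
    {D : k[X] | D.natDegree ≤ N ∧ ¬ IsCoprime D Δ}.ncard ≤ δ * Nat.card k ^ N := by
  classical
  set q := Nat.card k with hq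
  have hq2 : 2 ≤ q := card_pos
  set F := (UniqueFactorizationMonoid.normalizedFactors Δ).toFinset with hF
  have hsub : {D : k[X] | D.natDegree ≤ N ∧ ¬ IsCoprime D Δ} ⊆
      ⋃ P ∈ F, {D : k[X] | D.natDegree ≤ N ∧ P ∣ D} := by
    rintro D ⟨hD, hc⟩
    have h1 : ¬ ∀ z : k[X], Irreducible z → z ∣ D → ¬ z ∣ Δ := by
      intro h
      exact hc (isCoprime_of_irreducible_dvd (fun h2 => hΔ h2.2) fun z hz hzD => h z hz hzD)
    push Not at h1
    obtain ⟨z, hz, hzD, hzΔ⟩ := h1
    obtain ⟨P, hP, hzP⟩ := UniqueFactorizationMonoid.exists_mem_normalizedFactors_of_dvd hΔ hz hzΔ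
    simp only [Set.mem_iUnion]
    exact ⟨P, Multiset.mem_toFinset.2 hP, hD, hzP.symm.dvd.trans hzD⟩
  have hfin : (⋃ P ∈ F, {D : k[X] | D.natDegree ≤ N ∧ P ∣ D}).Finite :=
    (Finset.finite_toSet _).biUnion fun P _ => finite_sub N
  refine (Set.ncard_le_ncard hsub hfin).trans ?_
  have h1 : (⋃ P ∈ F, {D : k[X] | D.natDegree ≤ N ∧ P ∣ D}).ncard ≤ ∑ _P ∈ F, q ^ N := by
    refine (Finset.set_ncard_biUnion_le _ _).trans (Finset.sum_le_sum fun P hP => ?_)
    have hirr := UniqueFactorizationMonoid.irreducible_of_normalized_factor P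
      (Multiset.mem_toFinset.1 hP)
    refine (ncard_dvd hirr.ne_zero N).trans ?_
    exact Nat.pow_le_pow_right (by omega) (by have := hirr.natDegree_pos; omega)
  refine h1.trans ?_
  rw [Finset.sum_const, smul_eq_mul]
  refine Nat.mul_le_mul_right _ (le_trans ?_ hδ)
  refine (Multiset.toFinset_card_le _).trans ?_
  have h2 : ∀ s : Multiset k[X], (∀ P ∈ s, 0 < P.natDegree) → s.card ≤ s.prod.natDegree := by
    intro s
    induction s using Multiset.induction_on with
    | empty => intro _; exact Nat.zero_le _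
    | cons a s ih =>
      intro h
      have ha := h a (Multiset.mem_cons_self a s)
      have hs := fun P hP => h P (Multiset.mem_cons_of_mem hP)
      have hne : s.prod ≠ 0 := by
        rw [Ne, Multiset.prod_eq_zero_iff]
        intro h0
        have := hs 0 h0
        rw [natDegree_zero] at this
        exact absurd this (lt_irrefl 0)
      have ha0 : a ≠ 0 := by
        rintro rfl
        rw [natDegree_zero] at ha
        exact absurd ha (lt_irrefl 0)
      rw [Multiset.card_cons, Multiset.prod_cons, natDegree_mul ha0 hne]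
      have := ih hs
      omega
  have h3 := h2 (UniqueFactorizationMonoid.normalizedFactors Δ) fun P hP =>
    (UniqueFactorizationMonoid.irreducible_of_normalized_factor P hP).natDegree_pos
  refine h3.trans (le_of_eq ?_)
  have h4 := UniqueFactorizationMonoid.prod_normalizedFactors hΔ
  exact natDegree_eq_of_degree_eq (degree_eq_degree_of_associated h4)

end Pool.Agent.Y709.Sp
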