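import Pool.Agent.Y709.Sp.Cnt
import Mathlib.Algebra.Algebra.Basic
import Mathlib.Algebra.Module.Submodule.Basic
import Mathlib.RingTheory.Polynomial.DegreeLT

/-!
Independence of the values at the points of a finite set.
-/

set_option autoImplicit false
set_option linter.unusedSectionVars false

open Polynomial

namespace Pool.Agent.Y709.Sp

/-- fibres of a surjective homomorphism -/
noncomputable def fibreEquiv {G H : Type} [AddGroup G] [AddGroup H] (f : G →+ H)
    (σ : H → G) (hσ : ∀ y, f (σ y) = y) (S : Set H) : {w : G // f w ∈ S} ≃ S × f.ker where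
  toFun w := (⟨f w, w.2⟩, ⟨w.1 - σ (f w.1), by
    rw [AddMonoidHom.mem_ker, map_sub, hσ, sub_self]⟩)
  invFun p := ⟨p.2.1 + σ p.1.1, by
    have h : f p.2.1 = 0 := p.2.2
    rw [map_add, h, zero_add, hσ]
    exact p.1.2⟩
  left_inv w := by
    apply Subtype.ext
    show w.1 - σ (f w.1) + σ (f w.1) = w.1
    rw [sub_add_cancel]
  right_inv p := by
    have h : f p.2.1 = 0 := p.2.2
    have h1 : f (p.2.1 + σ p.1.1) = p.1.1 := by rw [map_add, h, zero_add, hσ]
    apply Prod.ext
    · exact Subtype.ext h1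
    · apply Subtype.ext
      show p.2.1 + σ p.1.1 - σ (f (p.2.1 + σ p.1.1)) = p.2.1
      rw [h1, add_sub_cancel_right]

theorem count_fibre {G H : Type} [AddGroup G] [AddGroup H] [Finite G] [Finite H] (f : G →+ H)
    (hf : Function.Surjective f) (S : Set H) :
    Nat.card {w : G // f w ∈ S} * Nat.card H = Nat.card G * Nat.card S := by
  choose σ hσ using hf
  have h1 := Nat.card_congr (fibreEquiv f σ hσ S)
  have h2 := Nat.card_congr (fibreEquiv f σ hσ Set.univ)
  rw [Nat.card_prod] at h1 h2
  have h3 : Nat.card {w : G // f w ∈ Set.univ} = Nat.card G :=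
    Nat.card_congr (Equiv.subtypeUnivEquiv fun _ => Set.mem_univ _)
  have h4 : Nat.card (Set.univ : Set H) = Nat.card H := Nat.card_univ
  rw [h3, h4] at h2
  rw [h1, h2]
  ring

theorem count_prod {G M ι : Type} [AddGroup G] [AddGroup M] [Finite G] [Finite M] [Fintype ι]
    (f : G →+ (ι → M)) (hf : Function.Surjective f) (S : ι → Set M) (s : ℕ)
    (hS : ∀ i, Nat.card (S i) ≤ s) :
    Nat.card {w : G // ∀ i, f w i ∈ S i} * Nat.card M ^ Fintype.card ι ≤
      Nat.card G * s ^ Fintype.card ι := by
  classical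
  have h1 := count_fibre f hf (Set.pi Set.univ S)
  have h2 : Nat.card (ι → M) = Nat.card M ^ Fintype.card ι := by
    rw [Nat.card_fun, Nat.card_eq_fintype_card (α := ι)]
  have h3 : Nat.card {w : G // ∀ i, f w i ∈ S i} = Nat.card {w : G // f w ∈ Set.pi Set.univ S} :=
    Nat.card_congr (Equiv.subtypeEquivRight fun w => by simp)
  rw [h3, ← h2, h1]
  refine Nat.mul_le_mul_left _ ?_
  rw [Nat.card_congr (Equiv.Set.univPi S), Nat.card_pi]
  refine (Finset.prod_le_prod' fun i _ => hS i).trans ?_
  rw [Finset.prod_const, Finset.card_univ]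

end Pool.Agent.Y709.Sp
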