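import Pool.Agent.Y709.Sp.Prod

/-!
The number of the polynomials with coefficients in a ring whose values at the points of a finite set
belong to given sets.
-/

set_option autoImplicit false
set_option linter.unusedSectionVars false

open Polynomial

namespace Pool.Agent.Y709.Sp

variable {k : Type} [Field k] [Finite k] {A : Type} [CommRing A] [Algebra k A]

/-- the group of the polynomials of degree at most `N` with coefficients in `H` -/
def grp (H : Submodule k A) (N : ℕ) : AddSubgroup A[X] where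
  carrier := {D | D.natDegree ≤ N ∧ ∀ j, D.coeff j ∈ H}
  zero_mem' := ⟨by rw [natDegree_zero]; exact Nat.zero_le _, fun j => by
    rw [coeff_zero]; exact H.zero_mem⟩
  add_mem' := by
    rintro D E ⟨h1, h2⟩ ⟨h3, h4⟩
    refine ⟨(natDegree_add_le _ _).trans (max_le h1 h3), fun j => ?_⟩
    rw [coeff_add]
    exact H.add_mem (h2 j) (h4 j)
  neg_mem' := by
    rintro D ⟨h1, h2⟩
    refine ⟨by rw [natDegree_neg]; exact h1, fun j => ?_⟩
    rw [coeff_neg]
    exact H.neg_mem (h2 j)

theorem finite_grp (H : Submodule k A) [Module.Finite k H] (N : ℕ) : Finite (grp H N) := by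
  have hf : Finite H := Module.finite_of_finite k
  have h1 : Function.Injective (fun D : grp H N =>
      fun i : Fin (N + 1) => (⟨D.1.coeff i, D.2.2 i⟩ : H)) := by
    intro D E h
    apply Subtype.ext
    ext n
    rcases Nat.lt_or_ge N n with hn | hn
    · rw [coeff_eq_zero_of_natDegree_lt (D.2.1.trans_lt hn),
        coeff_eq_zero_of_natDegree_lt (E.2.1.trans_lt hn)]
    · have := congrFun h ⟨n, by omega⟩
      exact congrArg Subtype.val this
  exact Finite.of_injective _ h1

theorem card_degreeLT (N : ℕ) : Nat.card (degreeLT k (N + 1)) = Nat.card k ^ (N + 1) := by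
  have h2 := Nat.card_congr (degreeLTEquiv k (N + 1)).toEquiv
  rw [h2, Nat.card_fun, Nat.card_eq_fintype_card (α := Fin _), Fintype.card_fin]

theorem mem_degreeLT_of {N : ℕ} {D : k[X]} (h : D.natDegree ≤ N) : D ∈ degreeLT k (N + 1) := by
  rw [mem_degreeLT]
  exact lt_of_le_of_lt degree_le_natDegree (by exact_mod_cast Nat.lt_succ_of_le h)

theorem natDegree_of_mem {N : ℕ} {D : k[X]} (h : D ∈ degreeLT k (N + 1)) : D.natDegree ≤ N := by
  rw [mem_degreeLT] at h
  exact natDegree_le_of_degree_le (Order.le_of_lt_succ (by exact_mod_cast h))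

/-- the values at the points -/
noncomputable def evH (H : Submodule k A) (N : ℕ) (T : Finset (A →ₐ[k] k)) :
    grp H N →+ (T → degreeLT k (N + 1)) where
  toFun D c := ⟨D.1.map (c.1 : A →+* k), mem_degreeLT_of (natDegree_map_le.trans D.2.1)⟩
  map_zero' := by
    funext c
    apply Subtype.ext
    exact Polynomial.map_zero _
  map_add' D E := by
    funext c
    apply Subtype.ext
    exact Polynomial.map_add _

theorem evH_surj (H : Submodule k A) (N : ℕ) (T : Finset (A →ₐ[k] k))
    (hH : ∀ g : (A →ₐ[k] k) → k, ∃ h ∈ H, ∀ c ∈ T, c h = g c) :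
    Function.Surjective (evH H N T) := by
  classical
  intro y
  let y' : (A →ₐ[k] k) → k[X] := fun c => if h : c ∈ T then (y ⟨c, h⟩ : k[X]) else 0
  have hy' : ∀ c, (y' c).natDegree ≤ N := by
    intro c
    by_cases h : c ∈ T
    · show (if h : c ∈ T then (y ⟨c, h⟩ : k[X]) else 0).natDegree ≤ N
      rw [dif_pos h]
      exact natDegree_of_mem (y ⟨c, h⟩).2
    · show (if h : c ∈ T then (y ⟨c, h⟩ : k[X]) else 0).natDegree ≤ N
      rw [dif_neg h, natDegree_zero]
      exact Nat.zero_le _
  have h1 := fun j : ℕ => hH (fun c => (y' c).coeff j)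
  choose h hh hc using h1
  have hD : (∑ j ∈ Finset.range (N + 1), monomial j (h j)) ∈ grp H N := by
    refine ⟨natDegree_sum_le_of_forall_le _ _ fun j hj => ?_, fun i => ?_⟩
    · rw [Finset.mem_range] at hj
      exact (natDegree_monomial_le _).trans (by omega)
    · rw [finsetSum_coeff]
      refine H.sum_mem fun j _ => ?_
      rw [coeff_monomial]
      split_ifs
      · exact hh j
      · exact H.zero_mem
  refine ⟨⟨_, hD⟩, ?_⟩
  funext c
  apply Subtype.ext
  show (∑ j ∈ Finset.range (N + 1), monomial j (h j)).map (c.1 : A →+* k) = (y c : k[X])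
  rw [Polynomial.map_sum]
  have h2 : ∀ j, (monomial j (h j)).map (c.1 : A →+* k) = monomial j ((y' c.1).coeff j) := by
    intro j
    rw [map_monomial]
    congr 1
    exact hc j c.1 c.2
  rw [Finset.sum_congr rfl fun j _ => h2 j]
  have h3 : y' c.1 = (y c : k[X]) := by
    show (if h : c.1 ∈ T then (y ⟨c.1, h⟩ : k[X]) else 0) = _
    rw [dif_pos c.2]
  rw [h3]
  exact ((y c : k[X]).as_sum_range' (N + 1) (Nat.lt_succ_of_le (natDegree_of_mem (y c).2))).symm

theorem count_spec (H : Submodule k A) [Module.Finite k H] (N : ℕ) (T : Finset (A →ₐ[k] k))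
    (hH : ∀ g : (A →ₐ[k] k) → k, ∃ h ∈ H, ∀ c ∈ T, c h = g c) (S : (A →ₐ[k] k) → Set k[X]) (s : ℕ)
    (hS : ∀ c ∈ T, {D : k[X] | D.natDegree ≤ N ∧ D ∈ S c}.ncard ≤ s * Nat.card k ^ N) :
    {D : A[X] | (D.natDegree ≤ N ∧ ∀ j, D.coeff j ∈ H) ∧
      ∀ c ∈ T, D.map (c : A →+* k) ∈ S c}.ncard * Nat.card k ^ T.card ≤
        s ^ T.card * {D : A[X] | D.natDegree ≤ N ∧ ∀ j, D.coeff j ∈ H}.ncard := by
  classical
  have hG := finite_grp H N
  have hM : Finite (degreeLT k (N + 1)) := by
    have : Module.Finite k (degreeLT k (N + 1)) :=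
      Module.Finite.equiv (degreeLTEquiv k (N + 1)).symm
    exact Module.finite_of_finite k
  have h1 := count_prod (evH H N T) (evH_surj H N T hH)
    (fun c => {D : degreeLT k (N + 1) | (D : k[X]) ∈ S c.1}) (s * Nat.card k ^ N) (by
      intro c
      refine le_trans (le_of_eq ?_) (hS c.1 c.2)
      rw [← Nat.card_coe_set_eq]
      refine Nat.card_congr
        { toFun := fun D => ⟨D.1.1, natDegree_of_mem D.1.2, D.2⟩
          invFun := fun D => ⟨⟨D.1, mem_degreeLT_of D.2.1⟩, D.2.2⟩
          left_inv := fun _ => rfl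
          right_inv := fun _ => rfl })
  rw [card_degreeLT, Fintype.card_coe] at h1
  have h2 : Nat.card {w : grp H N // ∀ c : T, evH H N T w c ∈
      {D : degreeLT k (N + 1) | (D : k[X]) ∈ S c.1}} =
      {D : A[X] | (D.natDegree ≤ N ∧ ∀ j, D.coeff j ∈ H) ∧
        ∀ c ∈ T, D.map (c : A →+* k) ∈ S c}.ncard := by
    rw [← Nat.card_coe_set_eq]
    exact Nat.card_congr
      { toFun := fun w => ⟨w.1.1, w.1.2, fun c hc => w.2 ⟨c, hc⟩⟩
        invFun := fun w => ⟨⟨w.1, w.2.1⟩, fun c => w.2.2 c.1 c.2⟩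
        left_inv := fun _ => rfl
        right_inv := fun _ => rfl }
  have h3 : Nat.card (grp H N) = {D : A[X] | D.natDegree ≤ N ∧ ∀ j, D.coeff j ∈ H}.ncard := by
    rw [← Nat.card_coe_set_eq]
    rfl
  rw [h2, h3] at h1
  set q := Nat.card k with hq
  have hq0 : 0 < q := by have := card_pos (k := k); omega
  have h4 : 0 < (q ^ N) ^ T.card := pow_pos (pow_pos hq0 _) _
  apply Nat.le_of_mul_le_mul_right _ h4
  calc _ = {D : A[X] | (D.natDegree ≤ N ∧ ∀ j, D.coeff j ∈ H) ∧
        ∀ c ∈ T, D.map (c : A →+* k) ∈ S c}.ncard * (q ^ (N + 1)) ^ T.card := by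
        rw [pow_succ, mul_pow]
        ring
    _ ≤ _ := h1
    _ = _ := by
        rw [mul_pow]
        ring

end Pool.Agent.Y709.Sp
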